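import Pool.Agent.Z704.Defs
import Pool.Agent.Y665.SELB.Selb

/-!
# Isogeny Selmer sets for many split primes and a factor of any sign: the second set
-/

set_option autoImplicit false

namespace Pool.Agent.Z363.SELB

open Finset
open Pool.Agent.Y700 (PC)
open Pool.Agent.Z700
open Pool.Agent.Y814.BSD14 Pool.Agent.Y809.BSD14 Pool.Agent.Y665.SELB
open Pool.Agent.Y687.N (HypK xrZ RtZ root2 sp_sq)

theorem sel_coreZ {P : Finset ℕ} {m : ℤ} (hP : ∀ p ∈ P, p.Prime ∧ p % 8 = 1)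
    (hpS : ∀ p ∈ P, (m : ZMod p) ≠ 0) (hsqf : Squarefree ((pr P : ℤ) * m)) (x : ℕ → ℤ)
    (R : ℕ → Prop) (hx : ∀ p, (R p → x p = 1) ∧ (¬ R p → x p = 0))
    (hodd : Odd (Yd lres x P))
    {c1 c2 : ℤ} {q0 : ℕ} (hc2 : ∀ q : ℕ, q.Prime → q ≠ q0 → ¬ (q : ℤ) ∣ c2)
    (hq0 : ∀ p ∈ P, p ≠ q0) (hs2 : ∀ p ∈ P, IsSquare (c2 : ZMod p))
    (hsq : ∀ p ∈ P, IsSquare (q0 : ZMod p))
    (hrt : ∀ q : ℕ, q.Prime → (q : ℤ) ∣ m → ∀ M r : ZMod q, M ≠ 0 →
      r ^ 2 + c1 * M * r + c2 * M ^ 2 ≠ 0)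
    {z : ℤ} (hz : Squarefree z)
    (h : ∀ (l : ℕ) [Fact l.Prime], PC (c1 * ((pr P : ℤ) * m))
      (c2 * ((pr P : ℤ) * m) ^ 2) l z)
    (key : ∀ p ∈ P, ∀ z' : ℤ, z = p * z' →
      (IsSquare ((z' : ZMod p) * ∏ q ∈ P.erase p, (q : ZMod p)) ↔ ¬ R p)) :
    z.natAbs = 1 ∨ z.natAbs = q0 := by
  classical
  -- the primes dividing `z`
  have hpr : ∀ q : ℕ, q.Prime → (q : ℤ) ∣ z → q = q0 ∨ q ∈ P := by
    intro q hq hqz
    by_contra hcon
    push Not at hcon
    have : Fact q.Prime := ⟨hq⟩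
    have hqP : Prime (q : ℤ) := Nat.prime_iff_prime_int.1 hq
    have hqprP : ¬ q ∣ pr P := by
      intro h1
      obtain ⟨p, hp, hqp⟩ := (Nat.Prime.prime hq).exists_mem_finset_dvd h1
      have h2 := (Nat.prime_dvd_prime_iff_eq hq (hP p hp).1).1 hqp
      exact hcon.2 (h2 ▸ hp)
    by_cases hqS : (q : ℤ) ∣ m
    · obtain ⟨m', hm'⟩ := hqS
      obtain ⟨M', hM'⟩ : ∃ M' : ℤ, M' = (pr P : ℤ) * m' := ⟨_, rfl⟩
      have hPS : (pr P : ℤ) * m = q * M' := by
        rw [hM', hm']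
        ring
      have hqM : ¬ (q : ℤ) ∣ M' := not_dvd_of_sqf hq hsqf hPS
      have hB : ¬ (q : ℤ) ∣ c2 * M' ^ 2 := by
        intro h0
        rcases hqP.dvd_or_dvd h0 with h0 | h0
        · exact hc2 q hq hcon.1 h0
        · exact hqM (hqP.dvd_of_dvd_pow h0)
      have h1 := h q
      rw [hPS, show c1 * ((q : ℤ) * M') = q * (c1 * M') by ring,
        show c2 * ((q : ℤ) * M') ^ 2 = (q : ℤ) ^ 2 * (c2 * M' ^ 2) by ring] at h1
      obtain ⟨r, hr, -, -⟩ := root_of_PC hz hqz hB h1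
      have hM0 : (M' : ZMod q) ≠ 0 := by
        intro h0
        exact hqM ((ZMod.intCast_zmod_eq_zero_iff_dvd _ _).1 h0)
      refine hrt q hq ⟨m', hm'⟩ (M' : ZMod q) r hM0 ?_
      rw [← hr]
      push_cast
      ring
    · refine not_dvd_of_PC hz ?_ (h q) hqz
      intro h0
      rcases hqP.dvd_or_dvd h0 with h0 | h0
      · exact hc2 q hq hcon.1 h0
      · rcases hqP.dvd_or_dvd (hqP.dvd_of_dvd_pow h0) with h1 | h1
        · exact hqprP (by exact_mod_cast h1)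
        · exact hqS h1
  obtain ⟨J, hJd⟩ : ∃ J : Finset ℕ, J = P.filter (fun p : ℕ => (p : ℤ) ∣ z) := ⟨_, rfl⟩
  have hJP : J ⊆ P := by rw [hJd]; exact Finset.filter_subset _ _
  have hJm : ∀ p, p ∈ J ↔ p ∈ P ∧ (p : ℤ) ∣ z := by
    intro p
    rw [hJd, Finset.mem_filter]
  obtain ⟨u, hu⟩ : ((∏ q ∈ J, (q : ℤ))) ∣ z := by
    have h1 : (∏ q ∈ J, q) ∣ z.natAbs := by
      refine Finset.prod_primes_dvd _ (fun p hp => (hP p (hJP hp)).1.prime) ?_
      intro p hp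
      exact Int.natCast_dvd.1 ((hJm p).1 hp).2
    have h2 := Int.natCast_dvd.2 h1
    rw [Nat.cast_prod] at h2
    exact h2
  have huq : ∀ q : ℕ, q.Prime → (q : ℤ) ∣ u → q = q0 := by
    intro q hq hqu
    have hqz : (q : ℤ) ∣ z := by rw [hu]; exact hqu.mul_left _
    rcases hpr q hq hqz with h1 | h1
    · exact h1
    · exfalso
      have h2 : q ∈ J := (hJm q).2 ⟨h1, hqz⟩
      have h3 : z = q * ((∏ r ∈ J.erase q, (r : ℤ)) * u) := by
        rw [hu, ← Finset.mul_prod_erase J (fun r : ℕ => (r : ℤ)) h2]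
        ring
      exact not_dvd_of_sqf hq hz h3 (hqu.mul_left _)
  have hun : u.natAbs = 1 ∨ u.natAbs = q0 := unit_part hz (Dvd.intro_left _ hu.symm) huq
  have husq : ∀ p ∈ P, IsSquare (u : ZMod p) := fun p hp =>
    unit_sq (hP p hp).1 (hP p hp).2 (hsq p hp) u hun
  have hu0 : ∀ p ∈ P, (u : ZMod p) ≠ 0 := by
    intro p hp h0
    have h1 := (ZMod.intCast_zmod_eq_zero_iff_dvd u p).1 h0
    exact hq0 p hp (huq p (hP p hp).1 h1)
  have hprod0 : ∀ p ∈ P, ∀ K : Finset ℕ, K ⊆ P → p ∉ K → (∏ q ∈ K, (q : ZMod p)) ≠ 0 := by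
    intro p hp K hK hpK
    have : Fact p.Prime := ⟨(hP p hp).1⟩
    rw [Finset.prod_ne_zero_iff]
    intro q hq
    exact cast_ne (hP p hp).1 (hP q (hK hq)).1 (fun h0 => hpK (h0 ▸ hq))
  have hpk : ∀ p ∈ P, (pr P : ℤ) * m = p * ((∏ q ∈ P.erase p, (q : ℤ)) * m) := by
    intro p hp
    rw [← mul_assoc, Finset.mul_prod_erase P (fun r : ℕ => (r : ℤ)) hp]
    unfold pr
    push_cast
    rfl
  have hJ : J = ∅ := by
    refine empty_of_odd lres x P J hJP hodd ?_ ?_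
    · intro p hp
      obtain ⟨hpP, hpJ⟩ := Finset.mem_sdiff.1 hp
      have hp1 := (hP p hpP).1
      have : Fact p.Prime := ⟨hp1⟩
      have hpz : ¬ (p : ℤ) ∣ z := fun h0 => hpJ ((hJm p).2 ⟨hpP, h0⟩)
      have hM1 : ¬ (p : ℤ) ∣ (∏ q ∈ P.erase p, (q : ℤ)) * m := by
        intro h0
        have h1 := (ZMod.intCast_zmod_eq_zero_iff_dvd _ p).2 h0
        push_cast at h1
        exact mul_ne_zero (hprod0 p hpP (P.erase p) (Finset.erase_subset _ _)
          (Finset.notMem_erase p P)) (hpS p hpP) h1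
      have h3 := h p
      rw [hpk p hpP] at h3
      have h4 := sq_of_PC hpz hM1 (hc2 p hp1 (hq0 p hpP)) (hs2 p hpP) h3
      rw [← sq_prod_iff hp1 (hP p hpP).2 J
        (fun q hq => ⟨(hP q (hJP hq)).1, (hP q (hJP hq)).2, fun h0 => hpJ (h0 ▸ hq)⟩)]
      have h5 : (z : ZMod p) = (u : ZMod p) * 1 ^ 2 * ∏ q ∈ J, (q : ZMod p) := by
        rw [hu]
        push_cast
        ring
      rw [h5] at h4
      exact (sq_mul_iff (husq p hpP) (hu0 p hpP) one_ne_zero).1 h4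
    · intro p hp
      have hpP := hJP hp
      have hp1 := (hP p hpP).1
      have : Fact p.Prime := ⟨hp1⟩
      have h3 : z = p * ((∏ r ∈ J.erase p, (r : ℤ)) * u) := by
        rw [hu, ← Finset.mul_prod_erase J (fun r : ℕ => (r : ℤ)) hp]
        ring
      have h4 := key p hpP _ h3
      have h5 : ∏ q ∈ P.erase p, (q : ZMod p) =
          (∏ q ∈ J.erase p, (q : ZMod p)) * ∏ q ∈ P \ J, (q : ZMod p) := by
        rw [← Finset.prod_union]
        · congr 1
          ext k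
          simp only [Finset.mem_erase, Finset.mem_union, Finset.mem_sdiff]
          constructor
          · rintro ⟨h, h'⟩
            by_cases hk : k ∈ J
            · exact Or.inl ⟨h, hk⟩
            · exact Or.inr ⟨h', hk⟩
          · rintro (⟨h, h'⟩ | ⟨h, h'⟩)
            · exact ⟨h, hJP h'⟩
            · exact ⟨fun h0 => h' (h0 ▸ hp), h⟩
        · rw [Finset.disjoint_left]
          intro k hk hk'
          exact (Finset.mem_sdiff.1 hk').2 (Finset.mem_of_mem_erase hk)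
      have h6 : (((∏ r ∈ J.erase p, (r : ℤ)) * u : ℤ) : ZMod p) * ∏ q ∈ P.erase p, (q : ZMod p) =
          (u : ZMod p) * (∏ q ∈ J.erase p, (q : ZMod p)) ^ 2 * ∏ q ∈ P \ J, (q : ZMod p) := by
        rw [h5]
        push_cast
        ring
      rw [h6, sq_mul_iff (husq p hpP) (hu0 p hpP) (hprod0 p hpP (J.erase p)
          ((Finset.erase_subset _ _).trans hJP) (Finset.notMem_erase p J)),
        sq_prod_iff hp1 (hP p hpP).2 (P \ J)
        (fun q hq => ⟨(hP q (Finset.mem_sdiff.1 hq).1).1, (hP q (Finset.mem_sdiff.1 hq).1).2,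
          fun h0 => (Finset.mem_sdiff.1 hq).2 (h0 ▸ hp)⟩)] at h4
      by_cases hR : R p
      · rw [(hx p).1 hR]
        have h7 : ¬ Even (∑ q ∈ P \ J, lres p q) := fun h0 => h4.1 h0 hR
        rw [Int.even_add]
        simp [h7]
      · rw [(hx p).2 hR, add_zero]
        exact h4.2 hR
  rw [hJ] at hu
  rw [Finset.prod_empty, one_mul] at hu
  rw [hu]
  exact hun


/-- the condition at a prime dividing `z` -/
theorem key_bZ {p q : ℕ} {m : ℤ} (hsp : Pool.Agent.Z701.Sp p) (hq0 : (q : ZMod p) ≠ 0)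
    (hm0 : (m : ZMod p) ≠ 0) (p7 : p ≠ 7) {z z' : ℤ} (hz : Squarefree z) (hz' : z = p * z')
    (h : ∀ (l : ℕ) [Fact l.Prime], PC (-26 * (p * (q * m))) (-343 * (p * (q * m)) ^ 2) l z) :
    IsSquare ((z' : ZMod p) * (q : ZMod p)) ↔ ¬ RtZ m p := by
  have hp : p.Prime := hsp.1
  have : Fact p.Prime := ⟨hp⟩
  have hpP : Prime (p : ℤ) := Nat.prime_iff_prime_int.1 hp
  have hq1 : ¬ (p : ℤ) ∣ (q * m : ℤ) := by
    intro h0
    have h1 := (ZMod.intCast_zmod_eq_zero_iff_dvd _ p).2 h0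
    push_cast at h1
    exact mul_ne_zero hq0 hm0 h1
  have hB : ¬ (p : ℤ) ∣ -343 * (q * m : ℤ) ^ 2 := by
    intro h0
    rcases hpP.dvd_or_dvd h0 with h0 | h0
    · exact dvd_343 hp p7 h0
    · exact hq1 (hpP.dvd_of_dvd_pow h0)
  have h1 := h p
  rw [show (-26 : ℤ) * (p * (q * m)) = p * (-26 * (q * m)) by ring,
    show (-343 : ℤ) * (p * (q * m)) ^ 2 = (p : ℤ) ^ 2 * (-343 * (q * m) ^ 2) by
      ring] at h1
  obtain ⟨r0, hr0', hr00, hr2⟩ := root_of_PC hz ⟨z', hz'⟩ hB h1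
  obtain ⟨t0, ht0'⟩ := hr2 z' hz'
  have hz0 : (z' : ZMod p) ≠ 0 := by
    rw [Ne, ZMod.intCast_zmod_eq_zero_iff_dvd]
    exact not_dvd_of_sqf hp hz hz'
  have hr : (r0 / q) ^ 2 + (-26) * (m : ZMod p) * (r0 / q) + (-343) * (m : ZMod p) ^ 2 = 0 := by
    push_cast at hr0'
    field_simp
    linear_combination hr0'
  rw [← root2 hsp hm0 (r0 / q) hr]
  have ht0 : t0 ≠ 0 := by
    rintro rfl
    apply mul_ne_zero hr00 hz0
    rw [ht0']; ring
  constructor
  · rintro ⟨s, hs⟩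
    refine ⟨t0 * s / (z' * q), ?_⟩
    field_simp
    linear_combination (z' * q) * ht0' + t0 ^ 2 * hs
  · rintro ⟨s, hs⟩
    have hs' : r0 = s * s * q := by
      rw [← hs]
      field_simp
    have hs0 : s ≠ 0 := by
      rintro rfl
      apply hr00
      rw [hs']; ring
    refine ⟨t0 / s, ?_⟩
    rw [hs'] at ht0'
    field_simp
    linear_combination ht0'

theorem t_SELB : Pool.Agent.Z704.S_SELB := by
  intro m P H z hz h
  have hPP := H.sp
  have p7 : ∀ p ∈ P, p ≠ 7 := by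
    rintro p hp rfl
    have := (hPP 7 hp).2.2
    omega
  have s7 : ∀ p ∈ P, IsSquare ((7 : ℕ) : ZMod p) := fun p hp =>
    sq_seven (hPP p hp).1 (hPP p hp).2.1 (hPP p hp).2.2
  have hxr : ∀ p, (RtZ m p → xrZ m p = 1) ∧ (¬ RtZ m p → xrZ m p = 0) := by
    intro p
    constructor
    · intro hR
      unfold xrZ
      rw [if_pos hR]
    · intro hR
      unfold xrZ
      rw [if_neg hR]
  have hrt : ∀ q : ℕ, q.Prime → (q : ℤ) ∣ m → ∀ M r : ZMod q, M ≠ 0 →
      r ^ 2 + ((-26 : ℤ) : ZMod q) * M * r + ((-343 : ℤ) : ZMod q) * M ^ 2 ≠ 0 := by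
    intro q hq1 hqm M r hM hr
    have : Fact q.Prime := ⟨hq1⟩
    obtain ⟨q2, q7, -, hns⟩ := H.two q hq1 hqm
    have n2' : (2 : ZMod q) ≠ 0 := by exact_mod_cast cast_ne hq1 Nat.prime_two q2
    have n16 : (16 : ZMod q) ≠ 0 := by
      rw [show (16 : ZMod q) = 2 ^ 4 by norm_num]; exact pow_ne_zero _ n2'
    apply hns
    refine ⟨(r - 13 * M) / (16 * M), ?_⟩
    push_cast at hr
    field_simp
    linear_combination -hr
  have h12 : z.natAbs = 1 ∨ z.natAbs = 7 := by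
    refine sel_coreZ (m := m) (c1 := -26) (c2 := -343)
      (fun p hp => ⟨(hPP p hp).1, (hPP p hp).2.1⟩) (fun p hp => H.m0 hp) H.sqf
      (xrZ m) (RtZ m) hxr H.odd
      (fun q hq n7 => dvd_343 hq n7) p7 ?_ s7 hrt hz h ?_
    · intro p hp
      obtain ⟨-, -, -, -, ⟨s, hs⟩⟩ := sp_sq (hPP p hp)
      refine ⟨7 * s, ?_⟩
      push_cast
      linear_combination 49 * hs
    · intro p hp z' hz'
      have hp1 := (hPP p hp).1
      have : Fact p.Prime := ⟨hp1⟩
      have hq0 : ((∏ q ∈ P.erase p, q : ℕ) : ZMod p) ≠ 0 := by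
        push_cast
        rw [Finset.prod_ne_zero_iff]
        intro q hq
        exact cast_ne hp1 (hPP q (Finset.mem_of_mem_erase hq)).1
          (fun h0 => (Finset.ne_of_mem_erase hq) h0.symm)
      have hpk : (pr P : ℤ) * m = p * (((∏ q ∈ P.erase p, q : ℕ) : ℤ) * m) := by
        have h1 : pr P = p * ∏ q ∈ P.erase p, q := by
          unfold pr
          rw [Finset.mul_prod_erase P (fun r : ℕ => r) hp]
        rw [h1]
        push_cast
        ring
      have h1 : ∀ (l : ℕ) [Fact l.Prime],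
          PC (-26 * (p * (((∏ q ∈ P.erase p, q : ℕ) : ℤ) * m)))
            (-343 * (p * (((∏ q ∈ P.erase p, q : ℕ) : ℤ) * m)) ^ 2) l z := by
        intro l _
        have := h l
        rwa [hpk] at this
      have h2 := key_bZ (hPP p hp) hq0 (H.m0 hp) (p7 p hp) hz hz' h1
      rw [Nat.cast_prod] at h2
      exact h2
  have hM : ((pr P : ℤ) * m) % 4 = 1 := by
    have h1 : ∀ K : Finset ℕ, (∀ q ∈ K, q % 4 = 1) → (∏ q ∈ K, q) % 4 = 1 := by
      intro K
      induction K using Finset.induction_on with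
      | empty => intro _; rfl
      | insert q K hq ih =>
        intro hK
        rw [Finset.prod_insert hq, Nat.mul_mod, ih (fun r hr => hK r (Finset.mem_insert_of_mem hr)),
          hK q (Finset.mem_insert_self q K)]
    have h2 : pr P % 4 = 1 := h1 P (fun q hq => by have := (hPP q hq).2.1; omega)
    have h4 : (pr P : ℤ) % 4 = 1 := by exact_mod_cast h2
    rw [Int.mul_emod, h4, H.m4]
    norm_num
  have e1 : z ≠ -1 := by
    rintro rfl
    exact not_neg_one hM (h 2)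
  have e2 : z ≠ 7 := by
    rintro rfl
    exact not_seven hM (h 2)
  omega

end Pool.Agent.Z363.SELB
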